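import Pool.Agent.Lib.MP_b5021c_nt.IfaceE2

/-!
# MP_b5021c_nt, board b5, row E2_TRE: the terminal case
-/

namespace Pool.Agent.B5.H27

open scoped LaurentPolynomial Topology
open Polynomial Pool.Agent.B5

theorem ca_congr_fin {f g : ℂ → ℝ} {E : Set ℂ} (hE : E.Finite)
    (h : ∀ z : ℂ, ‖z‖ = 1 → z ∉ E → f z = g z) :
    Real.circleAverage f 0 1 = Real.circleAverage g 0 1 := by
  apply Real.circleAverage_congr_codiscreteWithin _ one_ne_zero
  have h1 : (Eᶜ : Set ℂ) ∈ Filter.codiscreteWithin (Metric.sphere (0 : ℂ) |(1 : ℝ)|) :=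
    compl_finite_mem_codiscreteWithin hE
  have h2 : (Metric.sphere (0 : ℂ) |(1 : ℝ)|) ∈
      Filter.codiscreteWithin (Metric.sphere (0 : ℂ) |(1 : ℝ)|) :=
    Filter.self_mem_codiscreteWithin _
  filter_upwards [h1, h2] with z hz1 hz2
  exact h z (by simpa using hz2) hz1

section

variable {O : Type} [CommRing O] [Coef O]

theorem cont_evL (b : RO O) :
    ContinuousOn (fun z : ℂ => evL z b) (Metric.sphere (0 : ℂ) |(1 : ℝ)|) := by
  have h : (fun z : ℂ => evL z b) = fun z => ∑ n ∈ b.coeff.support, Coef.emb (b.coeff n) * z ^ n :=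
    rfl
  rw [h]
  apply continuousOn_finsetSum
  intro n _
  refine continuousOn_const.mul ?_
  intro z hz
  have hz1 : ‖z‖ = 1 := by simpa using hz
  have hz0 : z ≠ 0 := by
    intro h0
    rw [h0, norm_zero] at hz1
    norm_num at hz1
  exact (continuousAt_zpow₀ z n (Or.inl hz0)).continuousWithinAt

theorem ci_pmn (a : ℂ) (ha : ‖a‖ < 1) (b : RO O) :
    CircleIntegrable (fun z => (1 - ‖a‖ ^ 2) / ‖z - a‖ ^ 2 * (evL z b).re) 0 1 := by
  apply ContinuousOn.circleIntegrable'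
  refine ContinuousOn.mul ?_ (Complex.continuous_re.comp_continuousOn (cont_evL b))
  refine ContinuousOn.div continuousOn_const ?_ ?_
  · fun_prop
  · intro z hz h0
    have hz1 : ‖z‖ = 1 := by simpa using hz
    have h1 : ‖z - a‖ = 0 := by simpa using h0
    have h2 : z = a := by
      rw [norm_eq_zero] at h1
      exact sub_eq_zero.1 h1
    rw [h2] at hz1
    linarith

end

theorem tre (hTrm : TrmS) (hPsr : PsrS) (hSnt : SntS) (hE2 : E2S) (hEv : EvRS) (hZf : ZfinS) :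
    TreS := by
  intro O _ _ _ _ P L _ _ _ _ _ phi D S eta θ hDD hrk hS hθ hP hA
  obtain ⟨hEv1, hEv2, hEv3, hEv4⟩ := hEv O
  obtain ⟨hQ0, -, -, -, -, hray⟩ := hE2 O P L phi D hDD hrk
  obtain ⟨hle, -⟩ := hray S hS
  obtain ⟨i0, n, f, T, hT0, hTn, hrank, hsum⟩ := hTrm O P L phi D S eta θ hDD hrk hS hP hA
  set Q : RO O := D.coeff 0 with hQ
  set V : RO O := D.coeff 0 + (eta : RO O) * D.coeff S with hV
  have hVQ : ∀ z : Circle, ‖evR z (V - Q)‖ ≤ ‖evR z Q‖ := by
    intro z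
    have h1 : V - Q = (eta : RO O) * D.coeff S := by rw [hV, hQ]; ring
    rw [h1, map_mul, norm_mul, hEv2 z _ eta.isUnit, one_mul]
    exact hle z
  obtain ⟨a, ha, -, hpsr⟩ := hPsr O θ 1 Q V hP hQ0 le_rfl hA hVQ
  have hθ0 : (0 : ℝ) < θ := by linarith
  have ha15 : ‖a‖ ≤ 1 / 15 := by
    rw [ha, inv_eq_one_div]
    exact one_div_le_one_div_of_le (by norm_num) hθ
  have ha1 : ‖a‖ < 1 := by linarith
  have hV0 : V ≠ 0 := by
    obtain ⟨m, q, e, -, he, -, he1, -⟩ := hA
    intro h0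
    rw [he] at h0
    have h2 : (toLaurent e : RO O) = 0 := by
      have h3 := congrArg (fun x => LaurentPolynomial.T (-(m + 1)) * x) h0
      simp only [mul_zero] at h3
      rw [← mul_assoc, ← LaurentPolynomial.T_add, neg_add_cancel, LaurentPolynomial.T_zero,
        one_mul] at h3
      exact h3
    have h4 : e = 0 := by
      have h5 : (toLaurent e : RO O) = toLaurent 0 := by rw [h2, map_zero]
      exact Polynomial.toLaurent_injective h5
    rw [h4] at he1
    simp at he1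
  have hE : (((fun z : Circle => (z : ℂ)) '' {z : Circle | evR z V = 0}) : Set ℂ).Finite :=
    (hZf O V hV0).image _
  have hkey : Real.circleAverage (fun z => (1 - ‖a‖ ^ 2) / ‖z - a‖ ^ 2 *
        (2 * (evL z Q / evL z V).re - 1)) 0 1 =
      ∑ i, pmn a ((T i).coeff 0) := by
    have h1 : Real.circleAverage (fun z => ∑ i, (1 - ‖a‖ ^ 2) / ‖z - a‖ ^ 2 *
        (evL z ((T i).coeff 0)).re) 0 1 = ∑ i, pmn a ((T i).coeff 0) := by
      rw [Real.circleAverage_fun_sum]
      · rfl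
      · intro i _
        exact ci_pmn a ha1 _
    rw [← h1]
    apply ca_congr_fin hE
    intro z hz hzE
    let zc : Circle := ⟨z, by simpa [Submonoid.unitSphere] using hz⟩
    have hzc : (zc : ℂ) = z := rfl
    have hVz : evR zc V ≠ 0 := fun h0 => hzE ⟨zc, h0, hzc⟩
    have h2 := hsum zc hVz
    have h3 : ∀ p : RO O, evL z p = evR zc p := fun p => hEv1 zc p
    rw [h3 Q, h3 V, ← h2, map_sum, Complex.re_sum, Finset.mul_sum]
    refine Finset.sum_congr rfl fun i _ => ?_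
    rw [h3]
  rw [hkey, one_mul] at hpsr
  have hsn : ∀ i, 1 + (rk (supp (T i)) : ℝ) ≤ pmn a ((T i).coeff 0) := fun i =>
    hSnt O (Ker (f i)) (T i) (hT0 i) (hTn i) a ha15
  have h5 : (Module.finrank ℤ L : ℝ) ≤ 1 + ∑ i, (1 + (rk (supp (T i)) : ℝ)) := by
    exact_mod_cast hrank
  have h6 : ∑ i, (1 + (rk (supp (T i)) : ℝ)) ≤ ∑ i, pmn a ((T i).coeff 0) :=
    Finset.sum_le_sum fun i _ => hsn i
  linarith

end Pool.Agent.B5.H27
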